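import Pool.Agent.W292.RG.Stm

set_option autoImplicit false

/-! Task SEL of project RG. -/

namespace Pool.Agent.W45.RG

open Finset

theorem SEL : Pool.Agent.W292.RG.St_SEL := by
  intro V _ _ W f hf m hm
  obtain ⟨k, rfl⟩ := hm
  induction k with
  | zero =>
    intro _
    exact ⟨∅, by simp, by simp, by simp⟩
  | succ k ih =>
    intro hle
    obtain ⟨P, hPW, hPc, hPf⟩ := ih (by omega)
    have hlt : P.card < W.card := by omega
    obtain ⟨x, hxW, hxP⟩ := Finset.exists_mem_notMem_of_card_lt_card hlt
    obtain ⟨h1, h2, h3⟩ := hf x hxW
    have hfx : f x ∉ P := by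
      intro h
      apply hxP
      have := hPf _ h
      rwa [h3] at this
    refine ⟨insert x (insert (f x) P), ?_, ?_, ?_⟩
    · intro y hy
      rw [Finset.mem_insert, Finset.mem_insert] at hy
      rcases hy with rfl | rfl | hy
      · exact hxW
      · exact h1
      · exact hPW hy
    · rw [Finset.card_insert_of_notMem, Finset.card_insert_of_notMem hfx]
      · omega
      · rw [Finset.mem_insert]
        push Not
        exact ⟨h2.symm, hxP⟩
    · intro y hy
      rw [Finset.mem_insert, Finset.mem_insert] at hy ⊢
      rcases hy with rfl | rfl | hy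
      · right; left; rfl
      · left; exact h3
      · right; right; exact hPf y hy

end Pool.Agent.W45.RG
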